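import Pool.Agent.H27.Wb2

set_option autoImplicit false

namespace Pool.Agent.Results.MP_0a5dd0_an.BiHolder

open Pool.Agent.H27.Wb

/-- For every integer `b ≥ 2` and `α ∈ (0,1)` some finite family of 1-periodic Lipschitz functions
has an `α`-bi-Hölder Weierstrass embedding of the circle. -/
theorem result (b : ℕ) (hb : 2 ≤ b) (α : ℝ) (h0 : 0 < α) (h1 : α < 1) :
    ∃ (m : ℕ) (g : Fin m → ℝ → ℝ), 1 ≤ m ∧
      (∀ i, Function.Periodic (g i) 1 ∧ ∃ K : NNReal, LipschitzWith K (g i)) ∧
      ∃ C : ℝ, 1 ≤ C ∧ ∀ x y : ℝ,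
        C⁻¹ * dist (x : UnitAddCircle) (y : UnitAddCircle) ^ α ≤
          √(∑ i, (W b α (g i) x - W b α (g i) y) ^ 2) ∧
        √(∑ i, (W b α (g i) x - W b α (g i) y) ^ 2) ≤
          C * dist (x : UnitAddCircle) (y : UnitAddCircle) ^ α := by
  obtain ⟨M, M2, A, A1, hA⟩ := core b hb α h0 h1
  have M2' : (2 : ℝ) ≤ M := by exact_mod_cast M2
  refine ⟨M + M, fun i => fam b α M (finSumFinEquiv.symm i), by omega,
    fun i => ⟨fun x => by simpa using fam_per b α M _ x 1, fam_lip b α M M2 _⟩,
    (M + M) * A, by nlinarith, fun x y => ?_⟩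
  rw [Equiv.sum_comp finSumFinEquiv.symm
    (fun i => (W b α (fam b α M i) x - W b α (fam b α M i) y) ^ 2)]
  have base : ∀ u d : ℝ, 0 ≤ d → d ≤ 1 / 2 →
      ((M + M) * A)⁻¹ * d ^ α ≤
          √(∑ i, (W b α (fam b α M i) (u + d) - W b α (fam b α M i) u) ^ 2) ∧
        √(∑ i, (W b α (fam b α M i) (u + d) - W b α (fam b α M i) u) ^ 2) ≤
          ((M + M) * A) * d ^ α := by
    intro u d hd hd1
    rcases hd.eq_or_lt with e | hd'
    · subst e
      simp [Real.zero_rpow h0.ne']
    obtain ⟨up, i, lo⟩ := hA u d hd' hd1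
    have p0 : 0 < d ^ α := Real.rpow_pos_of_pos hd' _
    constructor
    · have c1 : (((M : ℝ) + M) * A)⁻¹ ≤ 1 / 2 := by
        rw [inv_eq_one_div]
        exact one_div_le_one_div_of_le (by norm_num) (by nlinarith)
      refine le_trans (mul_le_mul_of_nonneg_right c1 p0.le) (le_trans lo (le_trans (le_abs_self _)
        (Real.abs_le_sqrt ?_)))
      exact Finset.single_le_sum
        (f := fun i => (W b α (fam b α M i) (u + d) - W b α (fam b α M i) u) ^ 2)
        (fun _ _ => sq_nonneg _) (Finset.mem_univ i)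
    · refine Real.sqrt_le_iff.2 ⟨by positivity, ?_⟩
      have s : ∑ i, (W b α (fam b α M i) (u + d) - W b α (fam b α M i) u) ^ 2 ≤
          ∑ _i : Fin M ⊕ Fin M, (A * d ^ α) ^ 2 := Finset.sum_le_sum (fun i _ => by
        rw [← sq_abs]
        exact pow_le_pow_left₀ (abs_nonneg _) (up i) 2)
      refine le_trans s ?_
      rw [Finset.sum_const, Finset.card_univ, Fintype.card_sum, Fintype.card_fin, nsmul_eq_mul,
        mul_assoc, mul_pow ((M : ℝ) + M)]
      push_cast
      exact mul_le_mul_of_nonneg_right (by nlinarith) (sq_nonneg _)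
  have hd : dist (x : UnitAddCircle) (y : UnitAddCircle) = |x - y - round (x - y)| := by
    rw [dist_eq_norm, ← AddCircle.coe_sub, UnitAddCircle.norm_eq]
  have hr := abs_sub_round (x - y)
  have wp : ∀ i, W b α (fam b α M i) y = W b α (fam b α M i) (y + round (x - y)) :=
    fun i => (W_per b α _ (fam_per b α M i) y _).symm
  rw [hd]
  simp only [wp]
  rcases le_total 0 (x - y - round (x - y)) with h | h
  · rw [abs_of_nonneg h] at hr ⊢
    have := base (y + round (x - y)) _ h hr
    rwa [show y + round (x - y) + (x - y - round (x - y)) = x by ring] at this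
  · rw [abs_of_nonpos h] at hr ⊢
    have := base x _ (neg_nonneg.2 h) hr
    rw [show x + -(x - y - round (x - y)) = y + round (x - y) by ring] at this
    simp only [sub_sq_comm (W b α _ x)]
    exact this

end Pool.Agent.Results.MP_0a5dd0_an.BiHolder
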